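import Mathlib

set_option autoImplicit false

namespace Pool.Agent.Results.MP_2feb70_lc.CountableHeights

universe u

open Function Ordinal

/-- Finite relational structures of signature `(I, ar)` (a set `I` of relation symbols with
arities `ar`), with domain `Fin n` for some `n`. -/
abbrev FinStr (I : Type u) (ar : I → ℕ) : Type u :=
  Σ n : ℕ, (i : I) → Set (Fin (ar i) → Fin n)

variable {I : Type u} {ar : I → ℕ}

/-- `A` embeds into `B`. -/
def Emb (A B : FinStr I ar) : Prop :=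
  ∃ f : Fin A.1 → Fin B.1, Injective f ∧
    ∀ (i : I) (t : Fin (ar i) → Fin A.1), t ∈ A.2 i ↔ f ∘ t ∈ B.2 i

/-- An age: a nonempty, hereditary and directed class of finite structures. -/
structure IsAge (𝒜 : Set (FinStr I ar)) : Prop where
  nonempty : 𝒜.Nonempty
  hereditary : ∀ A B : FinStr I ar, B ∈ 𝒜 → Emb A B → A ∈ 𝒜
  directed : ∀ A ∈ 𝒜, ∀ B ∈ 𝒜, ∃ C ∈ 𝒜, Emb A C ∧ Emb B C

/-- `D(𝒜)`: the collection of all ages contained in `𝒜`. -/
abbrev SubAge (𝒜 : Set (FinStr I ar)) : Type u :=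
  {ℬ : Set (FinStr I ar) // IsAge ℬ ∧ ℬ ⊆ 𝒜}

/-- Strict inclusion on `D(𝒜)`. -/
def Below {𝒜 : Set (FinStr I ar)} (ℬ 𝒞 : SubAge 𝒜) : Prop := ℬ.1 ⊂ 𝒞.1

lemma Emb.refl (A : FinStr I ar) : Emb A A := ⟨id, injective_id, fun _ _ => Iff.rfl⟩

lemma Emb.trans {A B C : FinStr I ar} (h : Emb A B) (h' : Emb B C) : Emb A C := by
  obtain ⟨f, hf, hf'⟩ := h
  obtain ⟨g, hg, hg'⟩ := h'
  exact ⟨g ∘ f, hg.comp hf, fun i t => (hf' i t).trans (hg' i (f ∘ t))⟩

/-! ### Infinite Ramsey theorem for `n`-subsets -/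

theorem ramsey {κ : Type*} [Finite κ] (n : ℕ) : ∀ (c : Finset ℕ → κ) (S : Set ℕ), S.Infinite →
    ∃ T ⊆ S, T.Infinite ∧ ∃ a, ∀ σ : Finset ℕ, (σ : Set ℕ) ⊆ T → σ.card = n → c σ = a := by
  induction n with
  | zero =>
    intro c S hS
    exact ⟨S, subset_rfl, hS, c ∅, fun σ _ h => by rw [Finset.card_eq_zero.1 h]⟩
  | succ n ih =>
    intro c S hS
    have step : ∀ A : {A : Set ℕ // A.Infinite}, ∃ B : {A : Set ℕ // A.Infinite}, ∃ a : κ,
        B.1 ⊆ {y ∈ A.1 | sInf A.1 < y} ∧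
        ∀ σ : Finset ℕ, (σ : Set ℕ) ⊆ B.1 → σ.card = n → c (insert (sInf A.1) σ) = a := by
      intro A
      have hinf : {y ∈ A.1 | sInf A.1 < y}.Infinite := by
        have : A.1 ⊆ {y ∈ A.1 | sInf A.1 < y} ∪ {sInf A.1} := by
          intro y hy
          by_cases h : sInf A.1 < y
          · exact Or.inl ⟨hy, h⟩
          · exact Or.inr (le_antisymm (not_lt.1 h) (Nat.sInf_le hy))
        intro hfin
        exact A.2 ((hfin.union (Set.finite_singleton _)).subset this)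
      obtain ⟨T, hT, hTi, a, ha⟩ := ih (fun σ => c (insert (sInf A.1) σ)) _ hinf
      exact ⟨⟨T, hTi⟩, a, hT, ha⟩
    choose next col hsub hcol using step
    let A : ℕ → {A : Set ℕ // A.Infinite} := fun k => Nat.rec ⟨S, hS⟩ (fun _ B => next B) k
    have hA : ∀ k, A (k + 1) = next (A k) := fun k => rfl
    let x : ℕ → ℕ := fun k => sInf (A k).1
    have hx : ∀ k, x k ∈ (A k).1 := fun k => Nat.sInf_mem (A k).2.nonempty
    have hstep : ∀ k, (A (k + 1)).1 ⊆ {y ∈ (A k).1 | x k < y} := fun k => hsub (A k)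
    have hmono : ∀ k l, k ≤ l → (A l).1 ⊆ (A k).1 := by
      intro k l hkl
      induction l, hkl using Nat.le_induction with
      | base => exact subset_rfl
      | succ l _ ih' => exact (fun y hy => ih' (hstep l hy).1)
    have hlt : ∀ k l, k < l → x k < x l := by
      intro k l hkl
      exact (hstep k (hmono (k + 1) l hkl (hx l))).2
    have hxinj : StrictMono x := fun k l h => hlt k l h
    obtain ⟨a, ha⟩ : ∃ a, (((fun k => col (A k)) ⁻¹' {a}) : Set ℕ).Infinite := by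
      by_contra hcon
      push Not at hcon
      have : (Set.univ : Set ℕ) = ⋃ a, ((fun k => col (A k)) ⁻¹' {a}) := by
        ext k; simp
      have hf : (Set.univ : Set ℕ).Finite := by
        rw [this]
        exact Set.finite_iUnion fun a => hcon a
      exact Set.infinite_univ hf
    refine ⟨x '' ((fun k => col (A k)) ⁻¹' {a}), ?_, ha.image hxinj.injective.injOn, a, ?_⟩
    · rintro _ ⟨k, _, rfl⟩
      exact hmono 0 k (Nat.zero_le _) (hx k)
    · intro σ hσ hcard
      have hne : σ.Nonempty := Finset.card_pos.1 (by omega)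
      obtain ⟨k, hk, hk'⟩ := hσ (Finset.min'_mem σ hne)
      have hk'' : x k = σ.min' hne := hk'
      have hmem : x k ∈ σ := hk'' ▸ Finset.min'_mem σ hne
      have h1 : insert (x k) (σ.erase (x k)) = σ := Finset.insert_erase hmem
      have h2 : ((σ.erase (x k) : Finset ℕ) : Set ℕ) ⊆ (next (A k)).1 := by
        intro y hy
        rw [Finset.mem_coe, Finset.mem_erase] at hy
        obtain ⟨l, _, rfl⟩ := hσ hy.2
        have : x k < x l := lt_of_le_of_ne (hk'' ▸ Finset.min'_le σ _ hy.2) (Ne.symm hy.1)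
        have hkl : k < l := hxinj.lt_iff_lt.1 this
        exact hmono (k + 1) l hkl (hx l)
      have h3 := hcol (A k) (σ.erase (x k)) h2 (by rw [Finset.card_erase_of_mem hmem]; omega)
      have h4 : c σ = col (A k) := by
        rw [← h1]; exact h3
      rw [h4]; exact hk


/-! ### Structures on an arbitrary set and their ages -/

/-- The finite structures that embed into the structure `(M, R)` with image inside `Z`. -/
def ageOn {M : Type} (R : (i : I) → Set (Fin (ar i) → M)) (Z : Set M) : Set (FinStr I ar) :=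
  {S | ∃ g : Fin S.1 → M, Injective g ∧ (∀ x, g x ∈ Z) ∧
    ∀ (i : I) (t : Fin (ar i) → Fin S.1), t ∈ S.2 i ↔ g ∘ t ∈ R i}

/-- The structure induced on `Fin m` by an injection into `M`. -/
def pull {M : Type} (R : (i : I) → Set (Fin (ar i) → M)) {m : ℕ} (g : Fin m → M) :
    FinStr I ar := ⟨m, fun i => {t | g ∘ t ∈ R i}⟩

lemma pull_mem {M : Type} (R : (i : I) → Set (Fin (ar i) → M)) (Z : Set M) {m : ℕ}
    (g : Fin m → M) (hg : Injective g) (hZ : ∀ x, g x ∈ Z) : pull R g ∈ ageOn R Z :=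
  ⟨g, hg, hZ, fun _ _ => Iff.rfl⟩

/-- Bounded joint embedding inside a structure. -/
lemma joint {M : Type} (R : (i : I) → Set (Fin (ar i) → M)) (A B : FinStr I ar)
    (g : Fin A.1 → M) (hg : Injective g)
    (hgR : ∀ (i : I) (t : Fin (ar i) → Fin A.1), t ∈ A.2 i ↔ g ∘ t ∈ R i)
    (h : Fin B.1 → M) (hh : Injective h)
    (hhR : ∀ (i : I) (t : Fin (ar i) → Fin B.1), t ∈ B.2 i ↔ h ∘ t ∈ R i) :
    ∃ (l : ℕ) (k : Fin l → M), Injective k ∧ l ≤ A.1 + B.1 ∧
      (∀ x, k x ∈ Set.range g ∪ Set.range h) ∧ Emb A (pull R k) ∧ Emb B (pull R k) := by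
  classical
  let F : Finset M := (Finset.univ.image g) ∪ (Finset.univ.image h)
  let e : Fin F.card ≃ F := F.equivFin.symm
  let k : Fin F.card → M := fun x => (e x : M)
  have hk : Injective k := Subtype.val_injective.comp e.injective
  have hkZ : ∀ x, k x ∈ Set.range g ∪ Set.range h := by
    intro x
    have h0 : (e x : M) ∈ Finset.univ.image g ∪ Finset.univ.image h := (e x).2
    rw [Finset.mem_union] at h0
    rcases h0 with h1 | h1
    · obtain ⟨y, _, hy⟩ := Finset.mem_image.1 h1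
      exact Or.inl ⟨y, hy⟩
    · obtain ⟨y, _, hy⟩ := Finset.mem_image.1 h1
      exact Or.inr ⟨y, hy⟩
  have key : ∀ (C : FinStr I ar) (p : Fin C.1 → M), Injective p → (∀ x, p x ∈ F) →
      (∀ (i : I) (t : Fin (ar i) → Fin C.1), t ∈ C.2 i ↔ p ∘ t ∈ R i) → Emb C (pull R k) := by
    intro C p hp hpF hpR
    let q : Fin C.1 → Fin F.card := fun x => e.symm ⟨p x, hpF x⟩
    have hq : k ∘ q = p := by
      funext x
      simp [k, q]
    refine ⟨q, ?_, ?_⟩
    · intro x y hxy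
      apply hp
      rw [← hq]
      exact congrArg k hxy
    · intro i t
      rw [hpR i t]
      change p ∘ t ∈ R i ↔ k ∘ (q ∘ t) ∈ R i
      rw [← Function.comp_assoc, hq]
  refine ⟨F.card, k, hk, ?_, hkZ, key A g hg (fun x => ?_) hgR, key B h hh (fun x => ?_) hhR⟩
  · refine (Finset.card_union_le _ _).trans (add_le_add ?_ ?_)
    · exact Finset.card_image_le.trans (by simp)
    · exact Finset.card_image_le.trans (by simp)
  · exact Finset.mem_union_left _ (Finset.mem_image_of_mem _ (Finset.mem_univ _))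
  · exact Finset.mem_union_right _ (Finset.mem_image_of_mem _ (Finset.mem_univ _))

lemma ageOn_isAge {M : Type} (R : (i : I) → Set (Fin (ar i) → M)) (Z : Set M) :
    IsAge (ageOn R Z) := by
  refine ⟨⟨pull R (Fin.elim0 : Fin 0 → M), pull_mem R Z _ (fun x => x.elim0)
    (fun x => x.elim0)⟩, ?_, ?_⟩
  · rintro A B ⟨g, hg, hgZ, hgR⟩ ⟨f, hf, hf'⟩
    exact ⟨g ∘ f, hg.comp hf, fun x => hgZ _, fun i t => (hf' i t).trans (hgR i (f ∘ t))⟩
  · rintro A ⟨g, hg, hgZ, hgR⟩ B ⟨h, hh, hhZ, hhR⟩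
    obtain ⟨l, k, hk, -, hkr, hA, hB⟩ := joint R A B g hg hgR h hh hhR
    refine ⟨pull R k, pull_mem R Z k hk (fun x => ?_), hA, hB⟩
    rcases hkr x with ⟨y, hy⟩ | ⟨y, hy⟩
    · rw [← hy]; exact hgZ y
    · rw [← hy]; exact hhZ y

/-- Joint embeddings in an age can be chosen of bounded size. -/
lemma IsAge.bounded {ℬ : Set (FinStr I ar)} (hℬ : IsAge ℬ) {A B : FinStr I ar} (hA : A ∈ ℬ)
    (hB : B ∈ ℬ) : ∃ C ∈ ℬ, C.1 ≤ A.1 + B.1 ∧ Emb A C ∧ Emb B C := by
  obtain ⟨C, hC, ⟨f, hf, hf'⟩, ⟨g, hg, hg'⟩⟩ := hℬ.directed A hA B hB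
  obtain ⟨l, k, hk, hl, -, h1, h2⟩ := joint C.2 A B f hf hf' g hg hg'
  exact ⟨pull C.2 k, hℬ.hereditary _ _ hC ⟨k, hk, fun i t => Iff.rfl⟩, hl, h1, h2⟩

/-- All members of an age have the same empty substructure. -/
lemma IsAge.exists_empty {𝒜 : Set (FinStr I ar)} (h𝒜 : IsAge 𝒜) :
    ∃ E : FinStr I ar, ∀ S ∈ 𝒜, Emb E S := by
  obtain ⟨S₀, hS₀⟩ := h𝒜.nonempty
  refine ⟨pull S₀.2 (Fin.elim0 : Fin 0 → Fin S₀.1), fun S hS => ?_⟩
  obtain ⟨C, hC, ⟨f, hf, hf'⟩, ⟨g, hg, hg'⟩⟩ := h𝒜.directed S hS S₀ hS₀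
  refine ⟨Fin.elim0, fun x => x.elim0, fun i t => ?_⟩
  change Fin.elim0 ∘ t ∈ S₀.2 i ↔ Fin.elim0 ∘ t ∈ S.2 i
  rw [hf', hg']
  have : g ∘ Fin.elim0 ∘ t = f ∘ Fin.elim0 ∘ t := by
    funext a
    exact (t a).elim0
  rw [this]

lemma ageOn_mono {M : Type} (R : (i : I) → Set (Fin (ar i) → M)) {Z Z' : Set M} (h : Z ⊆ Z') :
    ageOn R Z ⊆ ageOn R Z' := by
  rintro S ⟨g, hg, hgZ, hgR⟩
  exact ⟨g, hg, fun x => h (hgZ x), hgR⟩

/-! ### Countable unions of chains -/

lemma extend_step {ℬ : Set (FinStr I ar)} (hℬ : IsAge ℬ) {K T : FinStr I ar} (hK : K ∈ ℬ)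
    (hT : T ∈ ℬ) : ∃ K' ∈ ℬ, ∃ h : K.1 ≤ K'.1,
      (∀ (i : I) (t : Fin (ar i) → Fin K.1), t ∈ K.2 i ↔ Fin.castLE h ∘ t ∈ K'.2 i) ∧
      Emb T K' := by
  classical
  obtain ⟨C, hC, ⟨f, hf, hf'⟩, ⟨g, hg, hg'⟩⟩ := hℬ.directed K hK T hT
  have hle : K.1 ≤ C.1 := by
    simpa using Fintype.card_le_of_injective f hf
  let s : Finset (Fin C.1) := Finset.univ.image (Fin.castLE hle)
  let f' : Fin C.1 → Fin C.1 := fun x => if hx : x.1 < K.1 then f ⟨x.1, hx⟩ else x
  obtain ⟨φ, hφ⟩ := Finset.exists_equiv_extend_of_card_eq (α := Fin C.1) (β := Fin C.1)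
    (t := Finset.univ) (s := s) (f := f') (by simp) (Finset.subset_univ _) (by
      intro x hx y hy hxy
      simp only [s, Finset.coe_image, Finset.coe_univ, Set.image_univ, Set.mem_range] at hx hy
      obtain ⟨x', rfl⟩ := hx
      obtain ⟨y', rfl⟩ := hy
      have : f x' = f y' := by simpa [f'] using hxy
      rw [hf this])
  let ψ : Fin C.1 → Fin C.1 := fun x => (φ x : Fin C.1)
  have hψ : Injective ψ := Subtype.val_injective.comp φ.injective
  have hψf : ∀ x : Fin K.1, ψ (Fin.castLE hle x) = f x := by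
    intro x
    have := hφ (Fin.castLE hle x) (by simp [s])
    simpa [f', ψ] using this
  have hψs : Surjective ψ := Finite.injective_iff_surjective.1 hψ
  refine ⟨⟨C.1, fun i => {t | ψ ∘ t ∈ C.2 i}⟩, hℬ.hereditary _ _ hC
    ⟨ψ, hψ, fun i t => Iff.rfl⟩, hle, ?_, ?_⟩
  · intro i t
    rw [hf' i t]
    have : f ∘ t = ψ ∘ (Fin.castLE hle ∘ t) := by
      funext a; exact (hψf (t a)).symm
    rw [this]; rfl
  · let e := Equiv.ofBijective ψ ⟨hψ, hψs⟩
    refine ⟨e.symm ∘ g, e.symm.injective.comp hg, ?_⟩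
    intro i t
    rw [hg' i t]
    have : g ∘ t = ψ ∘ ((e.symm ∘ g) ∘ t) := by
      funext a
      exact (e.apply_symm_apply (g (t a))).symm
    rw [this]; rfl

/-- Every sequence of members of an age lies in the age of one structure on `ℕ` whose age is
contained in the given one. -/
lemma exists_structure {ℬ : Set (FinStr I ar)} (hℬ : IsAge ℬ) (T : ℕ → FinStr I ar)
    (hT : ∀ k, T k ∈ ℬ) : ∃ (R : (i : I) → Set (Fin (ar i) → ℕ)) (Z : Set ℕ),
      ageOn R Z ⊆ ℬ ∧ ∀ k, T k ∈ ageOn R Z := by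
  classical
  obtain ⟨K₀, hK₀⟩ := hℬ.nonempty
  have step : ∀ (k : ℕ) (K : {K : FinStr I ar // K ∈ ℬ}), ∃ K' : {K : FinStr I ar // K ∈ ℬ},
      ∃ h : K.1.1 ≤ K'.1.1,
      (∀ (i : I) (t : Fin (ar i) → Fin K.1.1), t ∈ K.1.2 i ↔ Fin.castLE h ∘ t ∈ K'.1.2 i) ∧
      Emb (T k) K'.1 := by
    intro k K
    obtain ⟨K', hK', h⟩ := extend_step hℬ K.2 (hT k)
    exact ⟨⟨K', hK'⟩, h⟩
  choose next hle hres hemb using step
  let K : ℕ → {K : FinStr I ar // K ∈ ℬ} := fun k => Nat.rec ⟨K₀, hK₀⟩ (fun j L => next j L) k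
  have hK : ∀ k, K (k + 1) = next k (K k) := fun k => rfl
  have hcoh : ∀ k l, k ≤ l → ∃ h : (K k).1.1 ≤ (K l).1.1,
      ∀ (i : I) (t : Fin (ar i) → Fin (K k).1.1),
        t ∈ (K k).1.2 i ↔ Fin.castLE h ∘ t ∈ (K l).1.2 i := by
    intro k l hkl
    induction l, hkl using Nat.le_induction with
    | base => exact ⟨le_rfl, fun i t => Iff.rfl⟩
    | succ l _ ih =>
      obtain ⟨h, hh⟩ := ih
      refine ⟨h.trans (hle l (K l)), fun i t => ?_⟩
      rw [hh i t, hres l (K l) i (Fin.castLE h ∘ t)]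
      rfl
  let R : (i : I) → Set (Fin (ar i) → ℕ) := fun i =>
    {t | ∃ k, ∃ s : Fin (ar i) → Fin (K k).1.1, (∀ a, (s a : ℕ) = t a) ∧ s ∈ (K k).1.2 i}
  let Z : Set ℕ := {x | ∃ k, x < (K k).1.1}
  have hR : ∀ (k : ℕ) (i : I) (s : Fin (ar i) → Fin (K k).1.1),
      (fun a => (s a : ℕ)) ∈ R i ↔ s ∈ (K k).1.2 i := by
    intro k i s
    constructor
    · rintro ⟨l, s', hs', hmem⟩
      rcases le_total k l with hkl | hkl
      · obtain ⟨h, hh⟩ := hcoh k l hkl
        rw [hh i s]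
        have : Fin.castLE h ∘ s = s' := by
          funext a; apply Fin.ext; simpa using (hs' a).symm
        rw [this]; exact hmem
      · obtain ⟨h, hh⟩ := hcoh l k hkl
        have h2 := (hh i s').1 hmem
        have : Fin.castLE h ∘ s' = s := by
          funext a; apply Fin.ext; simpa using hs' a
        rw [← this]; exact h2
    · intro h
      exact ⟨k, s, fun a => rfl, h⟩
  refine ⟨R, Z, ?_, ?_⟩
  · rintro S ⟨g, hg, hgZ, hgR⟩
    have hb : ∃ k, ∀ x, g x < (K k).1.1 := by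
      choose kk hkk using hgZ
      refine ⟨Finset.univ.sup kk, fun x => ?_⟩
      obtain ⟨h, _⟩ := hcoh (kk x) (Finset.univ.sup kk) (Finset.le_sup (Finset.mem_univ x))
      exact lt_of_lt_of_le (hkk x) h
    obtain ⟨k, hk⟩ := hb
    refine hℬ.hereditary _ _ (K k).2 ⟨fun x => ⟨g x, hk x⟩, ?_, ?_⟩
    · intro x y hxy
      exact hg (by simpa using hxy)
    · intro i t
      rw [hgR i t]
      exact hR k i (fun a => ⟨g (t a), hk (t a)⟩)
  · intro k
    obtain ⟨f, hf, hf'⟩ := hemb k (K k)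
    refine ⟨fun x => (f x : ℕ), fun x y h => hf (Fin.ext h), fun x => ⟨k + 1, (f x).2⟩, ?_⟩
    intro i t
    rw [hf' i t]
    exact (hR (k + 1) i (f ∘ t)).symm


/-! ### Well-foundedness forces finitely many members of each size -/

lemma exists_ext {J : Set ℕ} (hJ : J.Infinite) (τ : Finset ℕ) (hτ : (τ : Set ℕ) ⊆ J) (n : ℕ)
    (h : τ.card ≤ n) : ∃ σ : Finset ℕ, τ ⊆ σ ∧ (σ : Set ℕ) ⊆ J ∧ σ.card = n := by
  classical
  induction n, h using Nat.le_induction with
  | base => exact ⟨τ, subset_rfl, hτ, rfl⟩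
  | succ n _ ih =>
    obtain ⟨σ, h1, h2, h3⟩ := ih
    obtain ⟨x, hx, hxσ⟩ := hJ.exists_notMem_finset σ
    refine ⟨insert x σ, h1.trans (Finset.subset_insert _ _), ?_, ?_⟩
    · rw [Finset.coe_insert]
      exact Set.insert_subset hx h2
    · rw [Finset.card_insert_of_notMem hxσ, h3]

lemma finite_codes {M : Type} (R : (i : I) → Set (Fin (ar i) → M)) (Z : Set M) (hZ : Z.Finite)
    (n : ℕ) : {S ∈ ageOn R Z | S.1 = n}.Finite ∧
      {S ∈ ageOn R Z | S.1 = n}.ncard ≤ Z.ncard ^ n := by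
  classical
  have : Finite Z := hZ
  let F : (Fin n → Z) → FinStr I ar := fun g => pull R (fun x => (g x : M))
  have hsub : {S ∈ ageOn R Z | S.1 = n} ⊆ Set.range F := by
    rintro ⟨m, S⟩ ⟨⟨g, hg, hgZ, hgR⟩, hm⟩
    simp only at hm
    subst hm
    refine ⟨fun x => ⟨g x, hgZ x⟩, ?_⟩
    simp only [F, pull]
    congr 1
    funext i
    ext t
    exact (hgR i t).symm
  have hfin : (Set.range F).Finite := Set.finite_range F
  refine ⟨hfin.subset hsub, ?_⟩
  calc _ ≤ (Set.range F).ncard := Set.ncard_le_ncard hsub hfin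
    _ ≤ Nat.card (Fin n → Z) := by
        rw [← Set.image_univ]
        refine (Set.ncard_image_le Set.finite_univ).trans ?_
        rw [Set.ncard_univ]
    _ = Z.ncard ^ n := by
        rw [Nat.card_fun]
        simp [Nat.card_coe_set_eq]

theorem finite_size {𝒜 : Set (FinStr I ar)} (h𝒜 : IsAge 𝒜)
    (hwf : WellFounded (Below (𝒜 := 𝒜))) (n : ℕ) : {S ∈ 𝒜 | S.1 = n}.Finite := by
  classical
  by_contra hinf
  have hinf' : {S ∈ 𝒜 | S.1 = n}.Infinite := hinf
  let T : ℕ → FinStr I ar := fun k => (hinf'.natEmbedding _ k : FinStr I ar)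
  have hT : ∀ k, T k ∈ 𝒜 ∧ (T k).1 = n := fun k => (hinf'.natEmbedding _ k).2
  have hTinj : Injective T := Subtype.val_injective.comp (hinf'.natEmbedding _).injective
  obtain ⟨R, Z₀, hRZ, hTR⟩ := exists_structure h𝒜 T (fun k => (hT k).1)
  -- the subsets of `Z₀` whose age still has infinitely many members of size `n`
  let 𝒵 : Set (Set ℕ) := {Z | Z ⊆ Z₀ ∧ {S ∈ ageOn R Z | S.1 = n}.Infinite}
  have hZ₀ : Z₀ ∈ 𝒵 := by
    refine ⟨subset_rfl, ?_⟩
    refine (Set.infinite_range_of_injective hTinj).mono ?_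
    rintro _ ⟨k, rfl⟩
    exact ⟨hTR k, (hT k).2⟩
  let toAge : 𝒵 → SubAge 𝒜 := fun Z =>
    ⟨ageOn R Z.1, ageOn_isAge R Z.1, (ageOn_mono R Z.2.1).trans hRZ⟩
  obtain ⟨Z, hmin⟩ : ∃ Z : 𝒵, ∀ Z' : 𝒵, ¬ Below (toAge Z') (toAge Z) := by
    have := (InvImage.wf toAge hwf).has_min Set.univ ⟨⟨Z₀, hZ₀⟩, trivial⟩
    obtain ⟨Z, _, hZ⟩ := this
    exact ⟨Z, fun Z' => hZ Z' trivial⟩
  -- choose infinitely many distinct members of size `n`
  have hZi := Z.2.2
  let U : ℕ → FinStr I ar := fun k => (hZi.natEmbedding _ k : FinStr I ar)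
  have hU : ∀ k, U k ∈ ageOn R Z.1 ∧ (U k).1 = n := fun k => (hZi.natEmbedding _ k).2
  have hUinj : Injective U := Subtype.val_injective.comp (hZi.natEmbedding _).injective
  choose g hg hgZ hgR using fun k => (hU k).1
  let X : ℕ → Set ℕ := fun k => Set.range (g k)
  have hXfin : ∀ k, (X k).Finite := fun k => Set.finite_range _
  have hXcard : ∀ k, (X k).ncard ≤ n := by
    intro k
    have h1 : (X k).ncard ≤ (Set.univ : Set (Fin (U k).1)).ncard := by
      change (Set.range (g k)).ncard ≤ _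
      rw [← Set.image_univ]
      exact Set.ncard_image_le Set.finite_univ
    rw [Set.ncard_univ, Nat.card_eq_fintype_card, Fintype.card_fin, (hU k).2] at h1
    exact h1
  let Y : Finset ℕ → Set ℕ := fun σ => ⋃ k ∈ σ, X k
  have hYfin : ∀ σ, (Y σ).Finite := fun σ => Set.Finite.biUnion σ.finite_toSet fun k _ => hXfin k
  have hYcard : ∀ σ : Finset ℕ, σ.card = n → (Y σ).ncard ≤ n * n := by
    intro σ hσ
    have : ∀ τ : Finset ℕ, (Y τ).ncard ≤ τ.card * n := by
      intro τ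
      induction τ using Finset.induction_on with
      | empty => simp [Y]
      | insert a τ ha ih =>
        have : Y (insert a τ) = X a ∪ Y τ := by simp [Y]
        rw [this, Finset.card_insert_of_notMem ha]
        calc _ ≤ (X a).ncard + (Y τ).ncard := Set.ncard_union_le _ _
          _ ≤ n + τ.card * n := add_le_add (hXcard a) ih
          _ = _ := by ring
    have := this σ
    rwa [hσ] at this
  -- for every `σ` of size `n` one of the first `M + 1` members is missing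
  let M : ℕ := (n * n) ^ n
  have havoid : ∀ σ : Finset ℕ, ∃ k : Fin (M + 1), σ.card = n → U k ∉ ageOn R (Y σ) := by
    intro σ
    by_cases hσ : σ.card = n
    · by_contra hcon
      push Not at hcon
      have hall : ∀ k : Fin (M + 1), U k ∈ {S ∈ ageOn R (Y σ) | S.1 = n} :=
        fun k => ⟨(hcon k).2, (hU k).2⟩
      obtain ⟨hf, hc⟩ := finite_codes R (Y σ) (hYfin σ) n
      have h1 : (Set.range fun k : Fin (M + 1) => U k).ncard ≤ M := by
        refine (Set.ncard_le_ncard ?_ hf).trans (hc.trans ?_)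
        · rintro _ ⟨k, rfl⟩; exact hall k
        · exact Nat.pow_le_pow_left (hYcard σ hσ) n
      have h2 : (Set.range fun k : Fin (M + 1) => U k).ncard = M + 1 := by
        rw [← Set.image_univ, Set.ncard_image_of_injective _
          (fun a b hab => Fin.ext (hUinj hab)), Set.ncard_univ]
        simp
      omega
    · exact ⟨0, fun h => absurd h hσ⟩
  choose c hc using havoid
  obtain ⟨J, -, hJ, a, ha⟩ := ramsey n c Set.univ Set.infinite_univ
  -- the substructure on the members indexed by `J`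
  let W : Set ℕ := ⋃ k ∈ J, X k
  have hWZ : W ⊆ Z.1 := by
    intro x hx
    simp only [W, Set.mem_iUnion] at hx
    obtain ⟨k, _, y, rfl⟩ := hx
    exact hgZ k y
  have hWinf : {S ∈ ageOn R W | S.1 = n}.Infinite := by
    refine (hJ.image hUinj.injOn).mono ?_
    rintro _ ⟨k, hk, rfl⟩
    refine ⟨⟨g k, hg k, fun x => ?_, hgR k⟩, (hU k).2⟩
    simp only [W, Set.mem_iUnion]
    exact ⟨k, hk, x, rfl⟩
  have hW : W ∈ 𝒵 := ⟨hWZ.trans Z.2.1, hWinf⟩
  have hmissing : U a ∉ ageOn R W := by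
    rintro ⟨h, hh, hhW, hhR⟩
    have : ∀ x, ∃ k ∈ J, h x ∈ X k := by
      intro x
      have := hhW x
      simp only [W, Set.mem_iUnion] at this
      obtain ⟨k, hk, hx⟩ := this
      exact ⟨k, hk, hx⟩
    choose q hq hq' using this
    let τ : Finset ℕ := Finset.univ.image q
    have hτJ : (τ : Set ℕ) ⊆ J := by
      intro k hk
      simp only [τ, Finset.coe_image, Finset.coe_univ, Set.image_univ] at hk
      obtain ⟨x, rfl⟩ := hk
      exact hq x
    have hτc : τ.card ≤ n := by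
      refine Finset.card_image_le.trans ?_
      simp [(hU a).2]
    obtain ⟨σ, hτσ, hσJ, hσc⟩ : ∃ σ : Finset ℕ, τ ⊆ σ ∧ (σ : Set ℕ) ⊆ J ∧ σ.card = n := by
      exact exists_ext hJ τ hτJ n hτc
    have h1 := ha σ hσJ hσc
    have h2 := hc σ hσc
    rw [h1] at h2
    apply h2
    refine ⟨h, hh, fun x => ?_, hhR⟩
    simp only [Y, Set.mem_iUnion]
    exact ⟨q x, hτσ (Finset.mem_image_of_mem _ (Finset.mem_univ x)), hq' x⟩
  refine hmin ⟨W, hW⟩ ⟨ageOn_mono R hWZ, fun hsub => hmissing (hsub (hU a).1)⟩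


/-! ### The upper bound: heights are countable -/

/-- The ages on a branch of the tree of finite approximations. -/
def Chain {𝒜 : Set (FinStr I ar)} (σ : List 𝒜) (C : ℕ → SubAge 𝒜) : Prop :=
  ∀ (j : ℕ) (h : j < σ.length), (C j).1 ⊆ (C (j + 1)).1 ∧
    (σ[j] : FinStr I ar) ∈ (C (j + 1)).1 ∧ (σ[j] : FinStr I ar) ∉ (C j).1

/-- The tree of finite approximations of descending sequences of ages. -/
def Step {𝒜 : Set (FinStr I ar)} (τ σ : List 𝒜) : Prop :=
  ∃ a, τ = a :: σ ∧ ∃ C, Chain τ C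

lemma countable_age {𝒜 : Set (FinStr I ar)} (h𝒜 : IsAge 𝒜)
    (hwf : WellFounded (Below (𝒜 := 𝒜))) : 𝒜.Countable := by
  have : 𝒜 = ⋃ n, {S ∈ 𝒜 | S.1 = n} := by
    ext S; simp
  rw [this]
  exact Set.countable_iUnion fun n => (finite_size h𝒜 hwf n).countable

lemma step_wf {𝒜 : Set (FinStr I ar)} (h𝒜 : IsAge 𝒜)
    (hwf : WellFounded (Below (𝒜 := 𝒜))) : WellFounded (Step (𝒜 := 𝒜)) := by
  classical
  rw [wellFounded_iff_isEmpty_descending_chain]
  refine ⟨fun ⟨f, hf⟩ => ?_⟩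
  choose a ha C hC using hf
  -- entries of `f (n + 1)`
  have hlen : ∀ n, (f n).length = (f 0).length + n := by
    intro n
    induction n with
    | zero => rfl
    | succ n ih => rw [ha n, List.length_cons, ih]; ring
  have hentry : ∀ n i, (hi : i ≤ n) → ∀ h : n - i < (f (n + 1)).length,
      (f (n + 1))[n - i] = a i := by
    intro n
    induction n with
    | zero =>
      intro i hi h
      obtain rfl : i = 0 := by omega
      simp [ha 0]
    | succ n ih =>
      intro i hi h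
      rcases Nat.lt_or_ge i (n + 1) with hlt | hge
      · have e1 : n + 1 - i = (n - i) + 1 := by omega
        have h' : n - i < (f (n + 1)).length := by
          have := hlen (n + 1); omega
        have := ih i (by omega) h'
        rw [← this]
        simp only [ha (n + 1), e1, List.getElem_cons_succ]
      · obtain rfl : i = n + 1 := by omega
        simp [ha (n + 1)]
  let B : ℕ → ℕ → SubAge 𝒜 := fun n i => C n (n + 1 - i)
  have hB1 : ∀ n i, i ≤ n → (B n (i + 1)).1 ⊆ (B n i).1 ∧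
      (a i : FinStr I ar) ∈ (B n i).1 ∧ (a i : FinStr I ar) ∉ (B n (i + 1)).1 := by
    intro n i hi
    have hl : n - i < (f (n + 1)).length := by
      have := hlen (n + 1); omega
    have h1 := hC n (n - i) hl
    rw [hentry n i hi hl] at h1
    have e1 : n - i + 1 = n + 1 - i := by omega
    have e2 : n - i = n + 1 - (i + 1) := by omega
    rw [e1] at h1
    rw [e2] at h1
    exact h1
  let 𝒰 : Filter ℕ := (Filter.hyperfilter ℕ : Ultrafilter ℕ)
  have hev : ∀ i : ℕ, ∀ᶠ n in 𝒰, i ≤ n := by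
    intro i
    exact Nat.hyperfilter_le_atTop (Filter.eventually_ge_atTop i)
  let L : ℕ → Set (FinStr I ar) := fun i => {S | ∀ᶠ n in 𝒰, S ∈ (B n i).1}
  obtain ⟨E, hE⟩ := h𝒜.exists_empty
  have hL : ∀ i, IsAge (L i) ∧ L i ⊆ 𝒜 := by
    intro i
    refine ⟨⟨⟨E, ?_⟩, ?_, ?_⟩, ?_⟩
    · refine Filter.Eventually.of_forall fun n => ?_
      obtain ⟨S, hS⟩ := (B n i).2.1.nonempty
      exact (B n i).2.1.hereditary _ _ hS (hE S ((B n i).2.2 hS))
    · intro S T hT hST
      exact hT.mono fun n hn => (B n i).2.1.hereditary _ _ hn hST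
    · intro S hS T hT
      have hfin : {K ∈ 𝒜 | K.1 ≤ S.1 + T.1}.Finite := by
        have : {K ∈ 𝒜 | K.1 ≤ S.1 + T.1} ⊆
            ⋃ m ∈ Finset.range (S.1 + T.1 + 1), {K ∈ 𝒜 | K.1 = m} := by
          rintro K ⟨hK, hK'⟩
          simp only [Finset.mem_range, Set.mem_iUnion]
          exact ⟨K.1, by omega, hK, rfl⟩
        refine Set.Finite.subset ?_ this
        exact Set.Finite.biUnion (Finset.finite_toSet _) fun m _ => finite_size h𝒜 hwf m
      have h1 : ∀ᶠ n in 𝒰, ∃ K ∈ {K ∈ 𝒜 | K.1 ≤ S.1 + T.1},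
          K ∈ (B n i).1 ∧ Emb S K ∧ Emb T K := by
        filter_upwards [hS, hT] with n hn1 hn2
        obtain ⟨K, hK, hK1, hK2, hK3⟩ := (B n i).2.1.bounded hn1 hn2
        exact ⟨K, ⟨(B n i).2.2 hK, hK1⟩, hK, hK2, hK3⟩
      obtain ⟨K, -, hK⟩ := (Ultrafilter.eventually_exists_mem_iff
        (f := (Filter.hyperfilter ℕ : Ultrafilter ℕ)) hfin).1 h1
      obtain ⟨n, hn⟩ := hK.exists
      exact ⟨K, hK.mono fun n hn => hn.1, hn.2.1, hn.2.2⟩
    · intro S hS
      obtain ⟨n, hn⟩ := Filter.Eventually.exists hS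
      exact (B n i).2.2 hn
  have hdesc : ∀ i, L (i + 1) ⊂ L i := by
    intro i
    refine ⟨fun S hS => ?_, fun hsub => ?_⟩
    · filter_upwards [hS, hev i] with n hn1 hn2
      exact (hB1 n i hn2).1 hn1
    · have h1 : (a i : FinStr I ar) ∈ L i := (hev i).mono fun n hn => (hB1 n i hn).2.1
      have h2 : ∀ᶠ n in 𝒰, (a i : FinStr I ar) ∈ (B n (i + 1)).1 := hsub h1
      obtain ⟨n, hn1, hn2⟩ := (h2.and (hev i)).exists
      exact (hB1 n i hn2).2.2 hn1
  exact (wellFounded_iff_isEmpty_descending_chain.1 hwf).false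
    ⟨fun i => ⟨L i, hL i⟩, fun i => hdesc i⟩

theorem rank_lt_omega_one {𝒜 : Set (FinStr I ar)} (h𝒜 : IsAge 𝒜)
    [hwf : IsWellFounded (SubAge 𝒜) Below] (ℬ : SubAge 𝒜) :
    IsWellFounded.rank Below ℬ < ω₁ := by
  classical
  have hc : Countable 𝒜 := countable_age h𝒜 hwf.wf
  have : IsWellFounded (List 𝒜) Step := ⟨step_wf h𝒜 hwf.wf⟩
  have h1 : ∀ σ : List 𝒜, IsWellFounded.rank Step σ < ω₁ := by
    intro σ
    induction σ using IsWellFounded.induction (Step (𝒜 := 𝒜)) with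
    | _ σ ih =>
      rw [IsWellFounded.rank_eq]
      refine Ordinal.iSup_lt_omega_one fun τ => ?_
      exact (Cardinal.isSuccLimit_omega 1).succ_lt (ih τ.1 τ.2)
  have h2 : ∀ (σ : List 𝒜) (C : ℕ → SubAge 𝒜), Chain σ C →
      IsWellFounded.rank Below (C 0) ≤ IsWellFounded.rank Step σ := by
    intro σ
    induction σ using IsWellFounded.induction (Step (𝒜 := 𝒜)) with
    | _ σ ih =>
      intro C hC
      rw [IsWellFounded.rank_eq (r := Below) (C 0)]
      refine Ordinal.iSup_le fun b => ?_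
      obtain ⟨b, hb⟩ := b
      obtain ⟨a, ha, hab⟩ := Set.exists_of_ssubset hb
      let a' : 𝒜 := ⟨a, (C 0).2.2 ha⟩
      let C' : ℕ → SubAge 𝒜 := fun n => Nat.casesOn n b C
      have hC' : Chain (a' :: σ) C' := by
        intro j hj
        cases j with
        | zero => exact ⟨hb.1, ha, hab⟩
        | succ j => exact hC j (by simpa using hj)
      have hstep : Step (a' :: σ) σ := ⟨a', rfl, C', hC'⟩
      exact Order.succ_le_of_lt ((ih _ hstep C' hC').trans_lt
        (IsWellFounded.rank_lt_of_rel hstep))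
  have h3 := h2 [] (fun _ => ℬ) (fun j hj => absurd hj (by simp))
  exact h3.trans_lt (h1 [])

/-! ### List structures and the gluing construction -/

/-- The unary predicate that always holds is added as the predicate number `0`. -/
def addUnary {M : Type} (P : ℕ → Set (List M)) : ℕ → Set (List M) := fun j =>
  Nat.casesOn j {x | x.length = 1} P

/-- Gluing: the structure number `n` becomes visible only in presence of the list `U n`. -/
def glue {M : ℕ → Type} (P : ∀ n, ℕ → Set (List (M n))) (U : ℕ → List (Σ n, M n)) :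
    ℕ → Set (List (Σ n, M n)) := fun k =>
  {l | ∃ x : List (M k.unpair.1), x ≠ [] ∧ l = U k.unpair.1 ++ x.map (Sigma.mk k.unpair.1) ∧
    x ∈ addUnary (P k.unpair.1) k.unpair.2}

lemma glue_pair {M : ℕ → Type} (P : ∀ n, ℕ → Set (List (M n))) (U : ℕ → List (Σ n, M n))
    (n j : ℕ) (l : List (Σ n, M n)) : l ∈ glue P U (Nat.pair n j) ↔
      ∃ x : List (M n), x ≠ [] ∧ l = U n ++ x.map (Sigma.mk n) ∧ x ∈ addUnary (P n) j := by
  unfold glue
  simp only [Set.mem_ofPred_eq]
  rw [Nat.unpair_pair]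

lemma addUnary_iff {M : Type} {P : ℕ → Set (List M)} {s : Set M} {f : M → M}
    (h : ∀ j (l : List M), l ≠ [] → (∀ x ∈ l, x ∈ s) → (l ∈ P j ↔ l.map f ∈ P j)) :
    ∀ j (l : List M), l ≠ [] → (∀ x ∈ l, x ∈ s) →
      (l ∈ addUnary P j ↔ l.map f ∈ addUnary P j) := by
  intro j l hl hs
  cases j with
  | zero => simp [addUnary]
  | succ j => exact h j l hl hs

lemma glue_iff {M : ℕ → Type} (P : ∀ n, ℕ → Set (List (M n))) (U : ℕ → List (Σ n, M n))
    (s : Set (Σ n, M n)) (θ : (Σ n, M n) → (Σ n, M n)) (ϑ : ∀ n, M n → M n) (m₀ : ℕ)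
    (h1 : ∀ n < m₀, ∀ x, ⟨n, x⟩ ∈ s → θ ⟨n, x⟩ = ⟨n, ϑ n x⟩)
    (h2 : ∀ x ∈ s, m₀ ≤ x.1 → m₀ ≤ (θ x).1)
    (hfix : ∀ n < m₀, ∀ x ∈ s, x ∈ U n → θ x = x)
    (hfix' : ∀ n < m₀, ∀ x ∈ s, θ x ∈ U n → θ x = x)
    (hP : ∀ n < m₀, ∀ j, ∀ l : List (M n), l ≠ [] → (∀ x ∈ l, (⟨n, x⟩ : Σ n, M n) ∈ s) →
      (l ∈ P n j ↔ l.map (ϑ n) ∈ P n j))
    (hinv : ∀ n, m₀ ≤ n → ∀ x : List (M n), x ≠ [] →
      ¬ (∀ y ∈ U n ++ x.map (Sigma.mk n), y ∈ s) ∧
      ¬ (∀ y ∈ U n ++ x.map (Sigma.mk n), y ∈ θ '' s)) :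
    ∀ k (l : List (Σ n, M n)), l ≠ [] → (∀ x ∈ l, x ∈ s) →
      (l ∈ glue P U k ↔ l.map θ ∈ glue P U k) := by
  intro k l hl hs
  obtain ⟨n, j, rfl⟩ : ∃ n j, k = Nat.pair n j := ⟨_, _, (Nat.pair_unpair k).symm⟩
  rw [glue_pair, glue_pair]
  rcases Nat.lt_or_ge n m₀ with hn | hn
  · have hadd := addUnary_iff (P := P n) (s := {x | (⟨n, x⟩ : Σ n, M n) ∈ s}) (f := ϑ n)
      (fun j l hl hs => hP n hn j l hl hs)
    constructor
    · rintro ⟨x, hx, rfl, hxP⟩
      refine ⟨x.map (ϑ n), by simpa using hx, ?_, (hadd j x hx ?_).1 hxP⟩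
      · rw [List.map_append, List.map_map, List.map_map]
        congr 1
        · conv_rhs => rw [← List.map_id (U n)]
          refine List.map_congr_left fun y hy => ?_
          exact hfix n hn y (hs y (List.mem_append_left _ hy)) hy
        · refine List.map_congr_left fun y hy => ?_
          exact h1 n hn y (hs _ (List.mem_append_right _ (List.mem_map_of_mem hy)))
      · intro y hy
        exact hs _ (List.mem_append_right _ (List.mem_map_of_mem hy))
    · rintro ⟨y, hy, hly, hyP⟩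
      obtain ⟨l₁, l₂, rfl, h3, h4⟩ := List.map_eq_append_iff.1 hly
      have e1 : l₁ = U n := by
        rw [← h3]
        conv_lhs => rw [← List.map_id l₁]
        refine List.map_congr_left fun z hz => ?_
        refine (hfix' n hn z (hs z (List.mem_append_left _ hz)) ?_).symm
        rw [← h3]; exact List.mem_map_of_mem hz
      have e2 : ∀ z ∈ l₂, z ∈ Set.range (Sigma.mk n : M n → Σ n, M n) := by
        intro z hz
        have hzs := hs z (List.mem_append_right _ hz)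
        have : θ z ∈ y.map (Sigma.mk n) := by
          rw [← h4]; exact List.mem_map_of_mem hz
        obtain ⟨w, _, hw⟩ := List.mem_map.1 this
        have hz1 : z.1 < m₀ := by
          by_contra hcon
          have := h2 z hzs (not_lt.1 hcon)
          rw [← hw] at this
          simp at this
          omega
        obtain ⟨n', z'⟩ := z
        have h5 := h1 n' hz1 z' hzs
        rw [h5] at hw
        have hnn : n = n' := congrArg Sigma.fst hw
        subst hnn
        exact ⟨z', rfl⟩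
      have e3 : l₂ ∈ Set.range (List.map (Sigma.mk n : M n → Σ n, M n)) := by
        rw [Set.range_list_map]; exact e2
      obtain ⟨x, rfl⟩ := e3
      have e4 : y = x.map (ϑ n) := by
        have : (y.map (Sigma.mk n)) = (x.map (ϑ n)).map (Sigma.mk n) := by
          rw [← h4, List.map_map, List.map_map]
          refine List.map_congr_left fun z hz => ?_
          exact h1 n hn z (hs _ (List.mem_append_right _ (List.mem_map_of_mem hz)))
        exact (List.map_injective_iff.2 sigma_mk_injective) this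
      subst e4
      refine ⟨x, by simpa using hy, by rw [e1], (hadd j x (by simpa using hy) ?_).2 hyP⟩
      intro z hz
      exact hs _ (List.mem_append_right _ (List.mem_map_of_mem hz))
  · constructor
    · rintro ⟨x, hx, rfl, -⟩
      exact absurd hs (hinv n hn x hx).1
    · rintro ⟨x, hx, hlx, -⟩
      refine absurd ?_ (hinv n hn x hx).2
      intro y hy
      rw [← hlx] at hy
      obtain ⟨z, hz, rfl⟩ := List.mem_map.1 hy
      exact ⟨z, hs z hz, rfl⟩

/-- `g` maps the finite set `s` into `t`, fixes `F` and preserves and reflects all relations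
on nonempty lists from `s`. -/
def Loc {M : Type} (P : ℕ → Set (List M)) (F s t : Finset M) (g : M → M) : Prop :=
  Set.InjOn g s ∧ (∀ x ∈ s, g x ∈ t) ∧ (∀ x ∈ F, g x = x) ∧
    ∀ j (l : List M), l ≠ [] → (∀ x ∈ l, x ∈ s) → (l ∈ P j ↔ l.map g ∈ P j)

lemma Loc.refl {M : Type} (P : ℕ → Set (List M)) (F s : Finset M) : Loc P F s s id :=
  ⟨Set.injOn_id _, fun _ h => h, fun _ _ => rfl, fun j l _ _ => by simp⟩

lemma Loc.trans {M : Type} {P : ℕ → Set (List M)} {F s t u : Finset M} {g h : M → M}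
    (h1 : Loc P F s t g) (h2 : Loc P F t u h) : Loc P F s u (h ∘ g) := by
  obtain ⟨a1, a2, a3, a4⟩ := h1
  obtain ⟨b1, b2, b3, b4⟩ := h2
  refine ⟨b1.comp a1 (fun x hx => a2 x hx), fun x hx => b2 _ (a2 x hx), fun x hx => ?_, ?_⟩
  · simp [a3 x hx, b3 x hx]
  · intro j l hl hs
    rw [a4 j l hl hs, b4 j (l.map g) (by simpa using hl) ?_, List.map_map]
    intro x hx
    obtain ⟨y, hy, rfl⟩ := List.mem_map.1 hx
    exact a2 y (hs y hy)

/-- Finite subsets are well-quasi-ordered under local embeddings that fix a given finite set. -/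
def WQ {M : Type} (P : ℕ → Set (List M)) : Prop :=
  ∀ (F : Finset M) (s : ℕ → Finset M), (∀ i, F ⊆ s i) →
    ∃ i j, i < j ∧ ∃ g, Loc P F (s i) (s j) g

/-- The preorder used on finite sets containing `F`. -/
def locRel {M : Type} (P : ℕ → Set (List M)) (F : Finset M) (s t : {s : Finset M // F ⊆ s}) :
    Prop := ∃ g, Loc P F s.1 t.1 g

instance {M : Type} (P : ℕ → Set (List M)) (F : Finset M) : IsPreorder _ (locRel P F) where
  refl s := ⟨id, Loc.refl P F s.1⟩
  trans _ _ _ h1 h2 := by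
    obtain ⟨g, hg⟩ := h1
    obtain ⟨h, hh⟩ := h2
    exact ⟨h ∘ g, hg.trans hh⟩

lemma WQ.wellQuasiOrdered {M : Type} {P : ℕ → Set (List M)} (h : WQ P) (F : Finset M) :
    WellQuasiOrdered (locRel P F) := by
  intro f
  obtain ⟨i, j, hij, g, hg⟩ := h F (fun n => (f n).1) (fun n => (f n).2)
  exact ⟨i, j, hij, g, hg⟩

lemma exists_injOn_of_card_le {α : Type*} (A B : Finset α) (h : A.card ≤ B.card) :
    ∃ φ : α → α, Set.InjOn φ A ∧ ∀ x ∈ A, φ x ∈ B := by
  classical
  obtain ⟨B', hB', hc⟩ := Finset.exists_subset_card_eq h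
  let e : A ≃ B' := Finset.equivOfCardEq hc.symm
  refine ⟨fun x => if hx : x ∈ A then e ⟨x, hx⟩ else x, ?_, ?_⟩
  · intro x hx y hy hxy
    have hx' : x ∈ A := hx
    have hy' : y ∈ A := hy
    simp only [hx', hy', dif_pos] at hxy
    have := e.injective (Subtype.ext hxy)
    exact congrArg Subtype.val this
  · intro x hx
    simp only [hx, dif_pos]
    exact hB' (e ⟨x, hx⟩).2

theorem WQ_glue {M : ℕ → Type} (P : ∀ n, ℕ → Set (List (M n))) (U : ℕ → List (Σ n, M n))
    (hP : ∀ n, WQ (P n)) (hU1 : ∀ n, ∀ x ∈ U n, x.1 < n)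
    (hU2 : ∀ n m, n ≤ m → ∀ x ∈ U n, x ∈ U m) (hU3 : ∀ x, ∃ n, x ∈ U n) :
    WQ (glue P U) := by
  classical
  intro F s hFs
  -- a stage that contains the first set
  obtain ⟨m₀, hm₀⟩ : ∃ m, ∀ x ∈ s 0, x ∈ U m := by
    choose c hc using hU3
    exact ⟨(s 0).sup c, fun x hx => hU2 _ _ (Finset.le_sup hx) x (hc x)⟩
  by_cases hcase : ∃ i, 0 < i ∧ ∀ x ∈ U m₀, x ∈ s i
  · obtain ⟨i, hi, hi'⟩ := hcase
    refine ⟨0, i, hi, id, Set.injOn_id _, fun x hx => hi' x (hm₀ x hx), fun _ _ => rfl,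
      fun j l _ _ => by simp⟩
  push Not at hcase
  -- no relation of index at least `m₀` is visible
  have hvis : ∀ i, 0 < i → ∀ n, m₀ ≤ n → ¬ ∀ x ∈ U n, x ∈ s i := by
    intro i hi n hn hcon
    obtain ⟨x, hx, hx'⟩ := hcase i hi
    exact hx' (hcon x (hU2 _ _ hn x hx))
  let F' : Finset (Σ n, M n) := F ∪ (Finset.range m₀).biUnion fun n => (U n).toFinset
  let fib : (n : ℕ) → Finset (Σ n, M n) → Finset (M n) := fun n t =>
    t.preimage (Sigma.mk n) (sigma_mk_injective.injOn)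
  have hfib : ∀ n t x, x ∈ fib n t ↔ (⟨n, x⟩ : Σ n, M n) ∈ t := by
    intro n t x; simp [fib]
  let rest : Finset (Σ n, M n) → Finset (Σ n, M n) := fun t =>
    t.filter fun x => m₀ ≤ x.1 ∧ x ∉ F
  let data : ℕ → (Finset F' × ((n : Fin m₀) → {t : Finset (M n) // fib n F' ⊆ t})) × ℕ :=
    fun i => ((F'.attach.filter fun x => (x : Σ n, M n) ∈ s (i + 1),
      fun n => ⟨fib n (s (i + 1) ∪ F'), fun x hx => by
        rw [hfib] at hx ⊢; exact Finset.mem_union_right _ hx⟩), (rest (s (i + 1))).card)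
  have hw1 : WellQuasiOrdered (fun a b : (n : Fin m₀) → {t : Finset (M n) // fib n F' ⊆ t} =>
      ∀ n : Fin m₀, locRel (P n) (fib n F') (a n) (b n)) :=
    WellQuasiOrdered.pi fun n => (hP n).wellQuasiOrdered _
  have hpre1 : IsPreorder ((n : Fin m₀) → {t : Finset (M n) // fib n F' ⊆ t}) (fun a b =>
      ∀ n : Fin m₀, locRel (P n) (fib n F') (a n) (b n)) :=
    { refl a i := refl (a i)
      trans a b c hab hbc i := _root_.trans (hab i) (hbc i) }
  have hw2 : WellQuasiOrdered (fun a b : Finset F' => a = b) := Finite.wellQuasiOrdered _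
  have hw3 := (hw2.prod hw1)
  have hpre3 : IsPreorder (Finset F' × ((n : Fin m₀) → {t : Finset (M n) // fib n F' ⊆ t}))
      (fun a b => a.1 = b.1 ∧ ∀ n : Fin m₀, locRel (P n) (fib n F') (a.2 n) (b.2 n)) :=
    { refl a := ⟨rfl, fun i => refl (a.2 i)⟩
      trans a b c hab hbc := ⟨hab.1.trans hbc.1, fun i => _root_.trans (hab.2 i) (hbc.2 i)⟩ }
  have hw4 := hw3.prod (wellQuasiOrdered_le (α := ℕ))
  obtain ⟨i, j, hij, ⟨⟨htr, hloc⟩, hcard⟩⟩ := hw4 data
  simp only [data] at htr hloc hcard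
  obtain ⟨φ, hφ1, hφ2⟩ := exists_injOn_of_card_le _ _ hcard
  choose γ hγ using hloc
  -- the local embedding
  let ϑ : ∀ n, M n → M n := fun n x => if hn : n < m₀ then γ ⟨n, hn⟩ x else x
  let θ : (Σ n, M n) → (Σ n, M n) := fun x =>
    if x.1 < m₀ then ⟨x.1, ϑ x.1 x.2⟩ else if x ∈ F then x else φ x
  have hϑ : ∀ n (hn : n < m₀), ϑ n = γ ⟨n, hn⟩ := by
    intro n hn; funext x; simp [ϑ, hn]
  have hθ1 : ∀ n < m₀, ∀ x : M n, θ ⟨n, x⟩ = ⟨n, ϑ n x⟩ := by
    intro n hn x; simp [θ, hn]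
  have hmemtr : ∀ x ∈ F', x ∈ s (i + 1) ↔ x ∈ s (j + 1) := by
    intro x hx
    have := congrArg (fun A => (⟨x, hx⟩ : F') ∈ A) htr
    simpa using this
  have hUF' : ∀ n < m₀, ∀ x ∈ U n, x ∈ F' := by
    intro n hn x hx
    refine Finset.mem_union_right _ (Finset.mem_biUnion.2 ⟨n, Finset.mem_range.2 hn, ?_⟩)
    simpa using hx
  have hFF' : ∀ x ∈ F, x ∈ F' := fun x hx => Finset.mem_union_left _ hx
  have hF'big : ∀ x ∈ F', m₀ ≤ x.1 → x ∈ F := by
    intro x hx hx1
    rcases Finset.mem_union.1 hx with h | h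
    · exact h
    · exfalso
      obtain ⟨n, hn, hxn⟩ := Finset.mem_biUnion.1 h
      have h3 := hU1 n x (by simpa using hxn)
      have h4 := Finset.mem_range.1 hn
      omega
  -- `θ` fixes `F'`
  have hθfix : ∀ x ∈ F', θ x = x := by
    intro x hx
    by_cases hx1 : x.1 < m₀
    · obtain ⟨n, x⟩ := x
      simp only at hx1
      rw [hθ1 n hx1, hϑ n hx1]
      have := (hγ ⟨n, hx1⟩).2.2.1 x ((hfib _ _ _).2 hx)
      rw [this]
    · have : x ∈ F := hF'big x hx (not_lt.1 hx1)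
      simp [θ, hx1, this]
  -- injectivity on the larger set
  have hinjγ : ∀ n (hn : n < m₀) (x y : M n), (⟨n, x⟩ : Σ n, M n) ∈ s (i + 1) ∪ F' →
      (⟨n, y⟩ : Σ n, M n) ∈ s (i + 1) ∪ F' → γ ⟨n, hn⟩ x = γ ⟨n, hn⟩ y → x = y := by
    intro n hn x y hx hy hxy
    exact (hγ ⟨n, hn⟩).1 ((hfib _ _ _).2 hx) ((hfib _ _ _).2 hy) hxy
  have hrestmem : ∀ t x, x ∈ rest t ↔ x ∈ t ∧ m₀ ≤ x.1 ∧ x ∉ F := by
    intro t x; simp [rest]
  have hθbig : ∀ x ∈ s (i + 1), m₀ ≤ x.1 → m₀ ≤ (θ x).1 := by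
    intro x hx hx1
    by_cases hxF : x ∈ F
    · rw [hθfix x (hFF' x hxF)]; exact hx1
    · have h3 : θ x = φ x := by simp [θ, not_lt.2 hx1, hxF]
      rw [h3]
      exact ((hrestmem _ _).1 (hφ2 x ((hrestmem _ _).2 ⟨hx, hx1, hxF⟩))).2.1
  have hθrefl : ∀ x ∈ s (i + 1), θ x ∈ F' → θ x = x := by
    intro x hx hθx
    by_cases hx1 : x.1 < m₀
    · obtain ⟨n, x⟩ := x
      simp only at hx1
      have h3 := hθfix _ hθx
      rw [hθ1 n hx1] at h3 hθx ⊢
      rw [hθ1 n hx1, hϑ n hx1] at h3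
      rw [hϑ n hx1] at hθx ⊢
      have h4 : γ ⟨n, hx1⟩ (γ ⟨n, hx1⟩ x) = γ ⟨n, hx1⟩ x := by
        have := (Sigma.mk.inj_iff.1 h3).2
        exact eq_of_heq this
      have h5 := hinjγ n hx1 _ _ (Finset.mem_union_right _ hθx) (Finset.mem_union_left _ hx) h4
      rw [h5]
    · by_cases hxF : x ∈ F
      · exact hθfix x (hFF' x hxF)
      · exfalso
        have h3 : θ x = φ x := by simp [θ, hx1, hxF]
        have h4 := (hrestmem _ _).1 (hφ2 x ((hrestmem _ _).2 ⟨hx, not_lt.1 hx1, hxF⟩))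
        rw [h3] at hθx
        exact h4.2.2 (hF'big _ hθx h4.2.1)
  have hmaps : ∀ x ∈ s (i + 1), θ x ∈ s (j + 1) := by
    intro x hx
    by_cases hxF' : x ∈ F'
    · rw [hθfix x hxF']; exact (hmemtr x hxF').1 hx
    · by_cases hx1 : x.1 < m₀
      · have hnot : θ x ∉ F' := fun h => hxF' (hθrefl x hx h ▸ h)
        obtain ⟨n, x⟩ := x
        simp only at hx1
        have h3 := (hγ ⟨n, hx1⟩).2.1 x ((hfib _ _ _).2 (Finset.mem_union_left _ hx))
        rw [hfib] at h3
        rw [hθ1 n hx1, hϑ n hx1] at hnot ⊢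
        exact (Finset.mem_union.1 h3).resolve_right hnot
      · have hxF : x ∉ F := fun h => hxF' (hFF' x h)
        have h3 : θ x = φ x := by simp [θ, hx1, hxF]
        rw [h3]
        exact ((hrestmem _ _).1 (hφ2 x ((hrestmem _ _).2 ⟨hx, not_lt.1 hx1, hxF⟩))).1
  have hinj : Set.InjOn θ (s (i + 1)) := by
    intro x hx y hy hxy
    have hx' : x ∈ s (i + 1) := hx
    have hy' : y ∈ s (i + 1) := hy
    by_cases hx1 : x.1 < m₀
    · have hy1 : y.1 < m₀ := by
        by_contra hcon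
        have := hθbig y hy' (not_lt.1 hcon)
        rw [← hxy] at this
        obtain ⟨n, x⟩ := x
        rw [hθ1 n hx1] at this
        simp at this hx1
        omega
      obtain ⟨n, x⟩ := x
      obtain ⟨m, y⟩ := y
      rw [hθ1 n hx1, hθ1 m hy1] at hxy
      have hnm : n = m := congrArg Sigma.fst hxy
      subst hnm
      rw [hϑ n hx1] at hxy
      have h4 := eq_of_heq (Sigma.mk.inj_iff.1 hxy).2
      rw [hinjγ n hx1 _ _ (Finset.mem_union_left _ hx') (Finset.mem_union_left _ hy') h4]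
    · have hy1 : ¬ y.1 < m₀ := by
        intro hy1
        have := hθbig x hx' (not_lt.1 hx1)
        rw [hxy] at this
        obtain ⟨n, y⟩ := y
        rw [hθ1 n hy1] at this
        simp at this hy1
        omega
      by_cases hxF : x ∈ F
      · have h5 : θ y = y := hθrefl y hy' (by
          rw [← hxy, hθfix x (hFF' x hxF)]; exact hFF' x hxF)
        rw [hθfix x (hFF' x hxF), h5] at hxy
        exact hxy
      · by_cases hyF : y ∈ F
        · have h5 : θ x = x := hθrefl x hx' (by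
            rw [hxy, hθfix y (hFF' y hyF)]; exact hFF' y hyF)
          rw [hθfix y (hFF' y hyF), h5] at hxy
          exact hxy
        · have h6 : θ x = φ x := by simp [θ, hx1, hxF]
          have h7 : θ y = φ y := by simp [θ, hy1, hyF]
          rw [h6, h7] at hxy
          exact hφ1 (Finset.mem_coe.2 ((hrestmem _ _).2 ⟨hx', not_lt.1 hx1, hxF⟩))
            (Finset.mem_coe.2 ((hrestmem _ _).2 ⟨hy', not_lt.1 hy1, hyF⟩)) hxy
  refine ⟨i + 1, j + 1, by omega, θ, hinj, hmaps, fun x hx => hθfix x (hFF' x hx), ?_⟩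
  refine glue_iff P U (s (i + 1) : Set _) θ ϑ m₀ (fun n hn x _ => hθ1 n hn x)
    (fun x hx => hθbig x hx) (fun n hn x _ hxU => hθfix x (hUF' n hn x hxU))
    (fun n hn x hx hxU => hθrefl x hx (hUF' n hn _ hxU)) ?_ ?_
  · intro n hn j' l hl hls
    rw [hϑ n hn]
    refine (hγ ⟨n, hn⟩).2.2.2 j' l hl ?_
    intro x hx
    exact (hfib _ _ _).2 (Finset.mem_union_left _ (hls x hx))
  · intro n hn x _
    constructor
    · intro hcon
      exact hvis (i + 1) (by omega) n hn fun y hy => hcon y (List.mem_append_left _ hy)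
    · intro hcon
      refine hvis (j + 1) (by omega) n hn fun y hy => ?_
      obtain ⟨z, hz, rfl⟩ := hcon y (List.mem_append_left _ hy)
      exact hmaps z hz


/-! ### From list structures to relational structures -/

/-- The signature with countably many relation symbols of every positive arity. -/
abbrev Sym : Type u := ULift.{u} (ℕ × ℕ)

/-- The arities. -/
def arity (i : Sym.{u}) : ℕ := i.down.1 + 1

/-- The relational structure defined by a list structure. -/
def toRel {M : Type} (P : ℕ → Set (List M)) (i : Sym.{u}) : Set (Fin (arity i) → M) :=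
  {t | List.ofFn t ∈ P i.down.2}

/-- The age of a list structure. -/
def ageL {M : Type} (P : ℕ → Set (List M)) : Set (FinStr Sym.{u} arity) :=
  ageOn (toRel P) Set.univ

lemma ageL_isAge {M : Type} (P : ℕ → Set (List M)) : IsAge (ageL.{u} P) :=
  ageOn_isAge _ _

lemma ageOn_iff {I : Type u} {ar : I → ℕ} {M : Type} (R : (i : I) → Set (Fin (ar i) → M))
    (Z : Set M) (S : FinStr I ar) : S ∈ ageOn R Z ↔
      ∃ g : Fin S.1 → M, Injective g ∧ (∀ x, g x ∈ Z) ∧ S = pull R g := by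
  constructor
  · rintro ⟨g, hg, hgZ, hgR⟩
    refine ⟨g, hg, hgZ, ?_⟩
    obtain ⟨m, S⟩ := S
    simp only [pull]
    congr 1
    funext i
    ext t
    exact hgR i t
  · rintro ⟨g, hg, hgZ, hS⟩
    refine ⟨g, hg, hgZ, ?_⟩
    have : ∀ (S' : FinStr I ar) (h : S'.1 = S.1), S' = S → ∀ (i : I) (t : Fin (ar i) → Fin S.1),
        t ∈ S.2 i ↔ (fun a => Fin.cast h.symm (t a)) ∈ S'.2 i := by
      rintro S' h rfl i t
      rfl
    intro i t
    rw [this (pull R g) rfl hS.symm i t]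
    rfl

/-- Lists of elements versus tuples. -/
lemma tuples_iff_lists {N : ℕ} {M M' : Type} (P : ℕ → Set (List M)) (P' : ℕ → Set (List M'))
    (k : Fin N → M) (k' : Fin N → M') :
    (∀ (i : Sym.{u}) (t : Fin (arity i) → Fin N), k ∘ t ∈ toRel P i ↔ k' ∘ t ∈ toRel P' i) ↔
    ∀ (j : ℕ) (l : List (Fin N)), l ≠ [] → (l.map k ∈ P j ↔ l.map k' ∈ P' j) := by
  have key : ∀ (i : Sym.{u}) (t : Fin (arity i) → Fin N) {M' : Type} (P' : ℕ → Set (List M'))
      (k' : Fin N → M'), k' ∘ t ∈ toRel P' i ↔ (List.ofFn t).map k' ∈ P' i.down.2 := by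
    intro i t M' P' k'
    rw [List.map_ofFn]
    exact Iff.rfl
  constructor
  · intro h j l hl
    obtain ⟨x, l', rfl⟩ := List.exists_cons_of_ne_nil hl
    let i : Sym.{u} := ⟨(l'.length, j)⟩
    let t : Fin (arity i) → Fin N := (x :: l').get
    have h1 := (key i t P k).symm.trans ((h i t).trans (key i t P' k'))
    have hl' : List.ofFn t = x :: l' := List.ofFn_get _
    rw [hl'] at h1
    exact h1
  · intro h i t
    rw [key, key]
    refine h i.down.2 (List.ofFn t) ?_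
    rw [ne_eq, List.ofFn_eq_nil_iff]
    exact Nat.succ_ne_zero _

lemma wqo_ageL {M : Type} {P : ℕ → Set (List M)} (h : WQ P) (S : ℕ → FinStr Sym.{u} arity)
    (hS : ∀ n, S n ∈ ageL P) : ∃ i j, i < j ∧ Emb (S i) (S j) := by
  classical
  have hS' : ∀ n, ∃ g : Fin (S n).1 → M, Injective g ∧ (∀ x, g x ∈ Set.univ) ∧
      S n = pull (toRel P) g := fun n => (ageOn_iff _ _ _).1 (hS n)
  choose g hg _ hgS using hS'
  obtain ⟨i, j, hij, θ, hθ1, hθ2, -, hθ3⟩ := h ∅ (fun n => Finset.univ.image (g n))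
    (fun n => Finset.empty_subset _)
  refine ⟨i, j, hij, ?_⟩
  have h1 : ∀ x, ∃ y, g j y = θ (g i x) := by
    intro x
    have := hθ2 (g i x) (Finset.mem_image_of_mem _ (Finset.mem_univ _))
    obtain ⟨y, _, hy⟩ := Finset.mem_image.1 this
    exact ⟨y, hy⟩
  choose f hf using h1
  have hfi : Injective f := by
    intro x y hxy
    apply hg i
    apply hθ1
    · simp
    · simp
    · rw [← hf, ← hf, hxy]
  rw [hgS i, hgS j]
  refine ⟨f, hfi, ?_⟩
  have hlists : ∀ (k : ℕ) (l : List (Fin (S i).1)), l ≠ [] →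
      (l.map (g i) ∈ P k ↔ l.map (g j ∘ f) ∈ P k) := by
    intro k l hl
    have hmap : l.map (g j ∘ f) = (l.map (g i)).map θ := by
      rw [List.map_map]
      exact List.map_congr_left fun x _ => hf x
    rw [hmap]
    refine hθ3 k _ (by simpa using hl) ?_
    intro x hx
    obtain ⟨y, _, rfl⟩ := List.mem_map.1 hx
    exact Finset.mem_image_of_mem _ (Finset.mem_univ _)
  exact (tuples_iff_lists P P (g i) (g j ∘ f)).2 hlists

lemma wf_ageL {M : Type} {P : ℕ → Set (List M)} (h : WQ P) :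
    WellFounded (Below (𝒜 := ageL.{u} P)) := by
  rw [wellFounded_iff_isEmpty_descending_chain]
  refine ⟨fun ⟨D, hD⟩ => ?_⟩
  have hex : ∀ n, ∃ S ∈ (D n).1, S ∉ (D (n + 1)).1 := fun n => Set.exists_of_ssubset (hD n)
  choose S hS hS' using hex
  have hmono : ∀ m n, m ≤ n → (D n).1 ⊆ (D m).1 := by
    intro m n hmn
    induction n, hmn using Nat.le_induction with
    | base => exact subset_rfl
    | succ n _ ih => exact (hD n).1.trans ih
  obtain ⟨i, j, hij, hemb⟩ := wqo_ageL h S (fun n => (D n).2.2 (hS n))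
  exact hS' i ((D (i + 1)).2.1.hereditary _ _ (hmono (i + 1) j hij (hS j)) hemb)

lemma rank_le_of_map {α β : Type u} {r : α → α → Prop} {s : β → β → Prop}
    [IsWellFounded α r] [IsWellFounded β s] (f : α → β) (hf : ∀ a b, r a b → s (f a) (f b))
    (a : α) : IsWellFounded.rank r a ≤ IsWellFounded.rank s (f a) := by
  induction a using IsWellFounded.induction r with
  | _ a ih =>
    rw [IsWellFounded.rank_eq (r := r) a]
    refine Ordinal.iSup_le fun b => ?_
    exact Order.succ_le_of_lt ((ih b.1 b.2).trans_lt (IsWellFounded.rank_lt_of_rel (hf _ _ b.2)))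

/-! ### Heights grow under gluing -/

section growth

variable {M : ℕ → Type} (P : ∀ n, ℕ → Set (List (M n))) (U : ℕ → List (Σ n, M n))

/-- The region of the glued structure formed by `U n` and a finite part of the `n`-th piece. -/
def region (n : ℕ) {m : ℕ} (g : Fin m → M n) : Set (Σ n, M n) :=
  {x | x ∈ U n} ∪ Set.range fun a => (⟨n, g a⟩ : Σ n, M n)

/-- The subage of the glued structure attached to a subage of the `n`-th piece. -/
def lift (n : ℕ) (C : Set (FinStr Sym.{u} arity)) : Set (FinStr Sym.{u} arity) :=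
  {S | ∃ (m : ℕ) (g : Fin m → M n), Injective g ∧ pull (toRel (P n)) g ∈ C ∧
    S ∈ ageOn (toRel (glue P U)) (region U n g)}

variable {P U}

lemma region_mono (hU1 : ∀ n, ∀ x ∈ U n, x.1 < n) (n : ℕ) {m m' : ℕ} (g : Fin m → M n)
    (hg : Injective g) (g' : Fin m' → M n) (hg' : Injective g')
    (h : Emb (pull (toRel.{u} (P n)) g) (pull (toRel.{u} (P n)) g')) :
    ageOn (toRel.{u} (glue P U)) (region U n g) ⊆
      ageOn (toRel.{u} (glue P U)) (region U n g') := by
  classical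
  obtain ⟨f, hf, hf''⟩ : ∃ f : Fin m → Fin m', Injective f ∧
      ∀ (i : Sym.{u}) (t : Fin (arity i) → Fin m),
        g ∘ t ∈ toRel (P n) i ↔ (g' ∘ f) ∘ t ∈ toRel (P n) i := h
  have hf' := (tuples_iff_lists (P n) (P n) g (g' ∘ f)).1 hf''
  -- the map between the regions
  let ϑ : ∀ k, M k → M k := fun k => if hk : k = n then
    (fun x => if hx : ∃ a, g a = (hk ▸ x : M n) then hk ▸ g' (f hx.choose) else x) else id
  let θ : (Σ n, M n) → (Σ n, M n) := fun x => ⟨x.1, ϑ x.1 x.2⟩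
  have hθn : ∀ a, θ ⟨n, g a⟩ = ⟨n, g' (f a)⟩ := by
    intro a
    have hx : ∃ b, g b = g a := ⟨a, rfl⟩
    have : hx.choose = a := hg hx.choose_spec
    simp [θ, ϑ, hx, this]
  have hϑn : ∀ a, ϑ n (g a) = g' (f a) := by
    intro a
    have := hθn a
    exact eq_of_heq (Sigma.mk.inj_iff.1 this).2
  have hθo : ∀ x : Σ n, M n, x.1 ≠ n → θ x = x := by
    rintro ⟨k, x⟩ hk
    simp only at hk
    simp [θ, ϑ, hk]
  have hUn : ∀ x ∈ U n, θ x = x := fun x hx => hθo x (by have := hU1 n x hx; omega)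
  have hle : ∀ x ∈ region U n g, x.1 ≤ n := by
    rintro x (hx | ⟨a, rfl⟩)
    · exact (hU1 n x hx).le
    · exact le_rfl
  have hlists := glue_iff P U (region U n g) θ ϑ (n + 1) (fun k _ x _ => rfl)
    (fun x hx h => by have := hle x hx; omega)
    (fun k hk x _ hxU => hθo x (by have := hU1 k x hxU; omega))
    (fun k hk x hx hxU => by
      refine hθo x ?_
      rintro rfl
      have := hU1 k _ hxU
      simp only [θ] at this
      omega)
    (by
      intro k hk j l hl hls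
      by_cases hkn : k = n
      · subst hkn
        have hr : ∀ x ∈ l, x ∈ Set.range g := by
          intro x hx
          rcases hls x hx with h | ⟨a, ha⟩
          · exact absurd (hU1 k _ h) (lt_irrefl _)
          · exact ⟨a, eq_of_heq (Sigma.mk.inj_iff.1 ha).2⟩
        have : l ∈ Set.range (List.map g) := by rw [Set.range_list_map]; exact hr
        obtain ⟨l', rfl⟩ := this
        rw [hf' j l' (by simpa using hl), List.map_map]
        have : l'.map (g' ∘ f) = l'.map (ϑ k ∘ g) :=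
          List.map_congr_left fun a _ => (hϑn a).symm
        rw [this]
      · have : ϑ k = id := by simp [ϑ, hkn]
        rw [this, List.map_id])
    (by
      intro k hk x hx
      obtain ⟨z, x', rfl⟩ := List.exists_cons_of_ne_nil hx
      have hmem : (⟨k, z⟩ : Σ n, M n) ∈ U k ++ (z :: x').map (Sigma.mk k) := by simp
      constructor
      · intro hcon
        have := hle _ (hcon _ hmem)
        simp only at this
        omega
      · intro hcon
        obtain ⟨y, hy, hyz⟩ := hcon _ hmem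
        have h1 := hle y hy
        have h2 : y.1 = k := congrArg Sigma.fst hyz
        omega)
  rintro S ⟨h, hh, hhZ, hhR⟩
  have hSpull : S = pull (toRel (glue P U)) h := by
    obtain ⟨m, S⟩ := S
    simp only [pull]
    congr 1
    funext i
    ext t
    exact hhR i t
  have hinj : Set.InjOn θ (region U n g) := by
    rintro x (hx | ⟨a, rfl⟩) y (hy | ⟨b, rfl⟩) hxy
    · rwa [hUn x hx, hUn y hy] at hxy
    · exfalso
      rw [hUn x hx] at hxy
      have := hU1 n x hx
      rw [hxy] at this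
      exact absurd this (lt_irrefl _)
    · exfalso
      rw [hUn y hy] at hxy
      have := hU1 n y hy
      rw [← hxy] at this
      exact absurd this (lt_irrefl _)
    · simp only [hθn] at hxy
      have := hf (hg' (eq_of_heq (Sigma.mk.inj_iff.1 hxy).2))
      rw [this]
  refine ⟨θ ∘ h, fun x y hxy => hh (hinj (hhZ x) (hhZ y) hxy), fun x => ?_, ?_⟩
  · rcases hhZ x with hx | ⟨a, ha⟩
    · left
      change θ (h x) ∈ U n
      rw [hUn _ hx]; exact hx
    · right
      refine ⟨f a, ?_⟩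
      change _ = θ (h x)
      simp only at ha
      rw [← ha, hθn]
  · intro i t
    rw [hhR i t]
    change List.ofFn (h ∘ t) ∈ glue P U i.down.2 ↔ List.ofFn ((θ ∘ h) ∘ t) ∈ glue P U i.down.2
    rw [Function.comp_assoc, ← List.map_ofFn (f := h ∘ t) (g := θ)]
    refine hlists _ _ ?_ ?_
    · rw [ne_eq, List.ofFn_eq_nil_iff]; exact Nat.succ_ne_zero _
    · intro x hx
      rw [List.mem_ofFn'] at hx
      obtain ⟨a, rfl⟩ := hx
      exact hhZ (t a)


lemma lift_isAge (hU1 : ∀ n, ∀ x ∈ U n, x.1 < n) (n : ℕ) {C : Set (FinStr Sym.{u} arity)}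
    (hC : IsAge C) (hCsub : C ⊆ ageL (P n)) : IsAge (lift P U n C) := by
  refine ⟨?_, ?_, ?_⟩
  · obtain ⟨S, hS⟩ := hC.nonempty
    obtain ⟨g, hg, -, hgS⟩ := (ageOn_iff _ _ _).1 (hCsub hS)
    obtain ⟨T, hT⟩ := (ageOn_isAge (toRel (glue P U)) (region U n g)).nonempty
    exact ⟨T, S.1, g, hg, hgS ▸ hS, hT⟩
  · rintro A B ⟨m, g, hg, hgC, hB⟩ hAB
    exact ⟨m, g, hg, hgC, (ageOn_isAge _ _).hereditary _ _ hB hAB⟩
  · rintro A ⟨m, g, hg, hgC, hA⟩ B ⟨m', g', hg', hgC', hB⟩
    obtain ⟨K, hK, hK1, hK2⟩ := hC.directed _ hgC _ hgC'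
    obtain ⟨k, hk, -, hkK⟩ := (ageOn_iff _ _ _).1 (hCsub hK)
    rw [hkK] at hK hK1 hK2
    have hA' := region_mono hU1 n g hg k hk hK1 hA
    have hB' := region_mono hU1 n g' hg' k hk hK2 hB
    obtain ⟨T, hT, hT1, hT2⟩ := (ageOn_isAge (toRel (glue P U)) (region U n k)).directed
      A hA' B hB'
    exact ⟨T, ⟨K.1, k, hk, hK, hT⟩, hT1, hT2⟩

lemma lift_sub (n : ℕ) (C : Set (FinStr Sym.{u} arity)) : lift P U n C ⊆ ageL (glue P U) := by
  rintro S ⟨m, g, -, -, hS⟩
  exact ageOn_mono _ (Set.subset_univ _) hS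

/-- A copy of a finite region. -/
lemma exists_code (n : ℕ) {m : ℕ} (g : Fin m → M n) : ∃ (N : ℕ) (k : Fin N → Σ n, M n),
    Injective k ∧ Set.range k = region U n g := by
  classical
  let F : Finset (Σ n, M n) := (U n).toFinset ∪ Finset.univ.image fun a => ⟨n, g a⟩
  let e : Fin F.card ≃ F := F.equivFin.symm
  refine ⟨F.card, fun x => (e x : Σ n, M n), Subtype.val_injective.comp e.injective, ?_⟩
  ext x
  constructor
  · rintro ⟨y, rfl⟩
    have h0 : (e y : Σ n, M n) ∈ (U n).toFinset ∪ Finset.univ.image (fun a => ⟨n, g a⟩) :=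
      (e y).2
    rcases Finset.mem_union.1 h0 with h | h
    · left
      exact List.mem_toFinset.1 h
    · right
      obtain ⟨a, _, ha⟩ := Finset.mem_image.1 h
      exact ⟨a, ha⟩
  · intro hx
    have hxF : x ∈ F := by
      rcases hx with hx | ⟨a, rfl⟩
      · exact Finset.mem_union_left _ (List.mem_toFinset.2 hx)
      · exact Finset.mem_union_right _ (Finset.mem_image_of_mem _ (Finset.mem_univ a))
    refine ⟨e.symm ⟨x, hxF⟩, ?_⟩
    simp

lemma map_preimage {N : ℕ} {α : Type*} (k : Fin N → α) (l : List α)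
    (hl : ∀ x ∈ l, x ∈ Set.range k) : ∃ l' : List (Fin N), l'.map k = l := by
  have : l ∈ Set.range (List.map k) := by rw [Set.range_list_map]; exact hl
  exact this

lemma lift_strict (hU1 : ∀ n, ∀ x ∈ U n, x.1 < n) (n : ℕ) {C C' : Set (FinStr Sym.{u} arity)}
    (hC : IsAge C) (hC' : C' ⊆ ageL (P n)) (h : C ⊂ C') : lift P U n C ⊂ lift P U n C' := by
  classical
  refine ⟨?_, fun hsub => ?_⟩
  · rintro S ⟨m, g, hg, hgC, hS⟩
    exact ⟨m, g, hg, h.1 hgC, hS⟩
  obtain ⟨T, hT, hTC⟩ := Set.exists_of_ssubset h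
  obtain ⟨g, hg, -, hgT⟩ := (ageOn_iff _ _ _).1 (hC' hT)
  rw [hgT] at hT hTC
  obtain ⟨N, k, hk, hkr⟩ := exists_code (U := U) n g
  have hS : pull (toRel.{u} (glue P U)) k ∈ lift P U n C' :=
    ⟨T.1, g, hg, hT, pull_mem _ _ k hk fun x => hkr ▸ ⟨x, rfl⟩⟩
  obtain ⟨m', g', hg', hgC, hSreg⟩ := hsub hS
  obtain ⟨θ, hθ, hθr, hθR⟩ : ∃ θ : Fin N → Σ n, M n, Injective θ ∧
      (∀ x, θ x ∈ region U n g') ∧ ∀ (i : Sym.{u}) (t : Fin (arity i) → Fin N),
        k ∘ t ∈ toRel (glue P U) i ↔ θ ∘ t ∈ toRel (glue P U) i := hSreg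
  have hlists := (tuples_iff_lists (glue P U) (glue P U) k θ).1 hθR
  apply hTC
  refine hC.hereditary _ _ hgC ?_
  -- images of the lists `U n ++ [⟨n, g a⟩]`
  have hrange : ∀ x ∈ region U n g, x ∈ Set.range k := fun x hx => hkr ▸ hx
  obtain ⟨u', hu'⟩ := map_preimage k (U n) (fun x hx => hrange x (Or.inl hx))
  have hpt : ∀ a, ∃ y, k y = ⟨n, g a⟩ := fun a => hrange _ (Or.inr ⟨a, rfl⟩)
  choose pt hpt using hpt
  have hun : ∀ a, u'.map θ = U n ∧ ∃ b, θ (pt a) = ⟨n, g' b⟩ := by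
    intro a
    have h1 : (u' ++ [pt a]).map k ∈ glue P U (Nat.pair n 0) := by
      rw [glue_pair]
      refine ⟨[g a], by simp, ?_, by simp [addUnary]⟩
      simp [hu', hpt]
    have h2 := (hlists (Nat.pair n 0) (u' ++ [pt a]) (by simp)).1 h1
    rw [glue_pair] at h2
    obtain ⟨x, hx, hx1, hx2⟩ := h2
    have hx3 : x.length = 1 := hx2
    obtain ⟨z, rfl⟩ := List.length_eq_one_iff.1 hx3
    simp only [List.map_append, List.map_cons, List.map_nil] at hx1
    have hlen : (u'.map θ).length = (U n).length := by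
      rw [List.length_map, ← hu', List.length_map]
    obtain ⟨h3, h4⟩ := List.append_inj hx1 hlen
    refine ⟨h3, ?_⟩
    have h5 : θ (pt a) = ⟨n, z⟩ := by simpa using h4
    rcases hθr (pt a) with h6 | ⟨b, h6⟩
    · have h6' : θ (pt a) ∈ U n := h6
      have := hU1 n _ h6'
      rw [h5] at this
      exact absurd this (lt_irrefl _)
    · exact ⟨b, h6.symm⟩
  have hun2 : ∀ a, ∃ b, θ (pt a) = ⟨n, g' b⟩ := fun a => (hun a).2
  choose f hf using hun2
  have hfi : Injective f := by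
    intro a b hab
    have h1 : θ (pt a) = θ (pt b) := by rw [hf, hf, hab]
    have h2 := hθ h1
    have h3 : k (pt a) = k (pt b) := by rw [h2]
    rw [hpt, hpt] at h3
    exact hg (eq_of_heq (Sigma.mk.inj_iff.1 h3).2)
  refine ⟨f, hfi, ?_⟩
  have hfin : ∀ (j : ℕ) (l : List (Fin T.1)), l ≠ [] →
      (l.map g ∈ P n j ↔ l.map (g' ∘ f) ∈ P n j) := by
    intro j l hl
    obtain ⟨a, l₀, rfl⟩ := List.exists_cons_of_ne_nil hl
    have hU := (hun a).1
    have key := hlists (Nat.pair n (j + 1)) (u' ++ (a :: l₀).map pt) (by simp)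
    have e1 : (u' ++ (a :: l₀).map pt).map k = U n ++ ((a :: l₀).map g).map (Sigma.mk n) := by
      rw [List.map_append, hu', List.map_map, List.map_map]
      congr 1
      exact List.map_congr_left fun x _ => hpt x
    have e2 : (u' ++ (a :: l₀).map pt).map θ =
        U n ++ ((a :: l₀).map (g' ∘ f)).map (Sigma.mk n) := by
      rw [List.map_append, hU, List.map_map, List.map_map]
      congr 1
      exact List.map_congr_left fun x _ => hf x
    have hglue : ∀ y : List (M n), y ≠ [] →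
        (U n ++ y.map (Sigma.mk n) ∈ glue P U (Nat.pair n (j + 1)) ↔ y ∈ P n j) := by
      intro y hy
      rw [glue_pair]
      constructor
      · rintro ⟨z, _, hz, hzP⟩
        have := (List.append_cancel_left hz)
        have := (List.map_injective_iff.2 sigma_mk_injective) this
        rw [this]; exact hzP
      · intro h
        exact ⟨y, hy, rfl, h⟩
    rw [e1, e2, hglue _ (by simp), hglue _ (by simp)] at key
    exact key
  exact (tuples_iff_lists (P n) (P n) g (g' ∘ f)).2 hfin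

lemma lift_ne_top (hU1 : ∀ n, ∀ x ∈ U n, x.1 < n) (n : ℕ) (y : M (n + 1))
    (C : Set (FinStr Sym.{u} arity)) : lift P U n C ⊂ ageL (glue P U) := by
  refine ⟨lift_sub n C, fun hsub => ?_⟩
  obtain ⟨N, k, hk, hkr⟩ := exists_code (U := U) (n + 1) (fun _ : Fin 1 => y)
  have hS : pull (toRel.{u} (glue P U)) k ∈ ageL (glue P U) :=
    pull_mem _ _ k hk fun _ => trivial
  obtain ⟨m', g', hg', hgC, hSreg⟩ := hsub hS
  obtain ⟨θ, hθ, hθr, hθR⟩ : ∃ θ : Fin N → Σ n, M n, Injective θ ∧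
      (∀ x, θ x ∈ region U n g') ∧ ∀ (i : Sym.{u}) (t : Fin (arity i) → Fin N),
        k ∘ t ∈ toRel (glue P U) i ↔ θ ∘ t ∈ toRel (glue P U) i := hSreg
  have hlists := (tuples_iff_lists (glue P U) (glue P U) k θ).1 hθR
  obtain ⟨l, hl⟩ := map_preimage k (U (n + 1) ++ [⟨n + 1, y⟩]) (by
    intro x hx
    rw [hkr]
    rcases List.mem_append.1 hx with h | h
    · exact Or.inl h
    · exact Or.inr ⟨0, (List.mem_singleton.1 h).symm⟩)
  have hne : l ≠ [] := by
    rintro rfl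
    simp at hl
  have h1 : l.map k ∈ glue P U (Nat.pair (n + 1) 0) := by
    rw [glue_pair, hl]
    exact ⟨[y], by simp, by simp, by simp [addUnary]⟩
  have h2 := (hlists (Nat.pair (n + 1) 0) l hne).1 h1
  rw [glue_pair] at h2
  obtain ⟨x, hx, hx1, -⟩ := h2
  obtain ⟨z, x', rfl⟩ := List.exists_cons_of_ne_nil hx
  have h3 : (⟨n + 1, z⟩ : Σ n, M n) ∈ l.map θ := by
    rw [hx1]; simp
  obtain ⟨w, _, hw⟩ := List.mem_map.1 h3
  rcases hθr w with h4 | ⟨b, h4⟩
  · have h4' : θ w ∈ U n := h4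
    have := hU1 n _ h4'
    rw [hw] at this
    simp only at this
    omega
  · rw [hw] at h4
    have : n = n + 1 := congrArg Sigma.fst h4
    omega

theorem rank_glue (hU1 : ∀ n, ∀ x ∈ U n, x.1 < n)
    (hM : ∀ n, Nonempty (M n)) (n : ℕ)
    [IsWellFounded (SubAge (ageL.{u} (P n))) Below]
    [IsWellFounded (SubAge (ageL.{u} (glue P U))) Below] :
    IsWellFounded.rank Below (⟨ageL (P n), ageL_isAge _, subset_rfl⟩ : SubAge (ageL.{u} (P n))) <
      IsWellFounded.rank Below (⟨ageL (glue P U), ageL_isAge _, subset_rfl⟩ :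
        SubAge (ageL.{u} (glue P U))) := by
  let f : SubAge (ageL.{u} (P n)) → SubAge (ageL.{u} (glue P U)) := fun C =>
    ⟨lift P U n C.1, lift_isAge hU1 n C.2.1 C.2.2, lift_sub n C.1⟩
  refine (rank_le_of_map f (fun a b hab => ?_) _).trans_lt
    (IsWellFounded.rank_lt_of_rel (lift_ne_top hU1 n (hM (n + 1)).some _))
  exact lift_strict hU1 n a.2.1 b.2.2 hab

end growth

theorem exists_large (α : Ordinal.{u}) (hα : α < ω₁) :
    ∃ (M : Type) (_ : Nonempty M) (_ : Countable M) (P : ℕ → Set (List M)), WQ P ∧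
      ∀ [IsWellFounded (SubAge (ageL.{u} P)) Below],
        α ≤ IsWellFounded.rank Below (⟨ageL P, ageL_isAge _, subset_rfl⟩ : SubAge (ageL.{u} P)) := by
  classical
  induction α using WellFoundedLT.induction with
  | _ α ih =>
    rcases eq_or_ne α 0 with rfl | hα0
    · refine ⟨PUnit, inferInstance, inferInstance, fun _ => ∅, ?_, fun {_} => by simp⟩
      intro F s _
      obtain ⟨i, j, hij, h⟩ := Finite.exists_ne_map_eq_of_infinite s |>.imp fun i ⟨j, hne, h⟩ =>
        (⟨j, hne, h⟩ : ∃ j, i ≠ j ∧ s i = s j)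
      rcases lt_or_gt_of_ne hij with hlt | hlt
      · exact ⟨i, j, hlt, id, h ▸ Loc.refl _ F (s i)⟩
      · exact ⟨j, i, hlt, id, h ▸ Loc.refl _ F (s i)⟩
    · have hcount : Countable (Set.Iio α) := by
        rw [← Cardinal.mk_le_aleph0_iff, Cardinal.mk_Iio_ordinal, Cardinal.lift_le_aleph0]
        have h1 : α.card < Cardinal.aleph 1 := by
          have : α < (Cardinal.aleph 1).ord := by simpa using hα
          exact Cardinal.lt_ord.1 this
        rw [← Cardinal.succ_aleph0] at h1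
        exact Order.lt_succ_iff.1 h1
      have hne : Nonempty (Set.Iio α) := ⟨⟨0, pos_iff_ne_zero.2 hα0⟩⟩
      obtain ⟨e, he⟩ := exists_surjective_nat (Set.Iio α)
      have hex := fun n => ih (e n).1 (e n).2 ((e n).2.trans hα)
      choose M hM hMc P hP hrank using hex
      obtain ⟨e', he'⟩ := exists_surjective_nat (Σ n, M n)
      let U : ℕ → List (Σ n, M n) := fun n =>
        ((List.range n).map e').filter fun x => decide (x.1 < n)
      have hUmem : ∀ n x, x ∈ U n ↔ (∃ i < n, e' i = x) ∧ x.1 < n := by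
        intro n x
        simp [U, List.mem_filter]
      have hU1 : ∀ n, ∀ x ∈ U n, x.1 < n := fun n x hx => ((hUmem n x).1 hx).2
      have hU2 : ∀ n m, n ≤ m → ∀ x ∈ U n, x ∈ U m := by
        intro n m hnm x hx
        obtain ⟨⟨i, hi, hix⟩, hx1⟩ := (hUmem n x).1 hx
        exact (hUmem m x).2 ⟨⟨i, by omega, hix⟩, by omega⟩
      have hU3 : ∀ x, ∃ n, x ∈ U n := by
        intro x
        obtain ⟨i, hi⟩ := he' x
        exact ⟨max i x.1 + 1, (hUmem _ _).2 ⟨⟨i, by omega, hi⟩, by omega⟩⟩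
      refine ⟨Σ n, M n, inferInstance, inferInstance, glue P U,
        WQ_glue P U hP hU1 hU2 hU3, ?_⟩
      intro hwf
      refine le_of_forall_lt fun β hβ => ?_
      obtain ⟨n, hn⟩ := he ⟨β, hβ⟩
      have : IsWellFounded (SubAge (ageL.{u} (P n))) Below := ⟨wf_ageL (hP n)⟩
      have h1 := hrank n
      rw [hn] at h1
      exact h1.trans_lt (rank_glue hU1 hM n)

/-- The rank of a member of `D(𝒜)` does not depend on the ambient age. -/
lemma rank_restrict {I : Type u} {ar : I → ℕ} {𝒜 : Set (FinStr I ar)}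
    [hwf : IsWellFounded (SubAge 𝒜) Below] (ℬ : SubAge 𝒜) :
    ∃ _ : IsWellFounded (SubAge ℬ.1) Below, ∀ 𝒞 : SubAge ℬ.1,
      IsWellFounded.rank Below 𝒞 =
        IsWellFounded.rank Below (⟨𝒞.1, 𝒞.2.1, 𝒞.2.2.trans ℬ.2.2⟩ : SubAge 𝒜) := by
  let f : SubAge ℬ.1 → SubAge 𝒜 := fun 𝒞 => ⟨𝒞.1, 𝒞.2.1, 𝒞.2.2.trans ℬ.2.2⟩
  have hwf' : IsWellFounded (SubAge ℬ.1) Below := ⟨InvImage.wf f hwf.wf⟩
  refine ⟨hwf', fun 𝒞 => ?_⟩
  apply le_antisymm
  · exact rank_le_of_map f (fun a b hab => hab) 𝒞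
  · induction 𝒞 using IsWellFounded.induction (Below (𝒜 := ℬ.1)) with
    | _ 𝒞 ih =>
      conv_lhs => rw [IsWellFounded.rank_eq]
      refine Ordinal.iSup_le fun b => ?_
      obtain ⟨b, hb⟩ := b
      have hb' : b.1 ⊂ 𝒞.1 := hb
      let b' : SubAge ℬ.1 := ⟨b.1, b.2.1, hb'.1.trans 𝒞.2.2⟩
      have := ih b' hb'
      exact Order.succ_le_of_lt (this.trans_lt (IsWellFounded.rank_lt_of_rel hb'))

/-- The height `h(𝒜)`, for an age `𝒜` with `D(𝒜)` well-founded. -/
noncomputable def height {I : Type u} {ar : I → ℕ} (𝒜 : Set (FinStr I ar)) (h𝒜 : IsAge 𝒜)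
    [IsWellFounded (SubAge 𝒜) Below] : Ordinal.{u} :=
  IsWellFounded.rank Below (⟨𝒜, h𝒜, subset_rfl⟩ : SubAge 𝒜)

/-- The attained heights are exactly the countable ordinals. -/
theorem result (α : Ordinal.{u}) :
    (∃ (I : Type u) (ar : I → ℕ) (𝒜 : Set (FinStr I ar)) (h𝒜 : IsAge 𝒜)
      (_ : IsWellFounded (SubAge 𝒜) Below), height 𝒜 h𝒜 = α) ↔ α < ω₁ := by
  constructor
  · rintro ⟨I, ar, 𝒜, h𝒜, hwf, rfl⟩
    exact rank_lt_omega_one h𝒜 _
  · intro hα
    obtain ⟨M, _, _, P, hP, hr⟩ := exists_large α hα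
    have hwf : IsWellFounded (SubAge (ageL.{u} P)) Below := ⟨wf_ageL hP⟩
    obtain ⟨ℬ, hℬ⟩ := IsWellFounded.mem_range_rank_of_le hr
    obtain ⟨hwf', hrk⟩ := rank_restrict ℬ
    refine ⟨Sym, arity, ℬ.1, ℬ.2.1, hwf', ?_⟩
    rw [← hℬ]
    exact hrk ⟨ℬ.1, ℬ.2.1, subset_rfl⟩

end Pool.Agent.Results.MP_2feb70_lc.CountableHeights
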